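import Mathlib

set_option autoImplicit false

/-!
Local metric dimension against clique number: every connected non-complete graph without
a clique on `q + 2` vertices (`q ≥ 2`) has a local resolving set `W` with
`|W| ≤ (q - 1) |V \ W|`.
-/

namespace Pool.Agent.Y689.LMD

open Finset Classical

set_option linter.unusedSectionVars false

variable {V : Type} [Fintype V] (G : SimpleGraph V)

/-- `W` is a local resolving set. -/
def Res (W : Finset V) : Prop :=
  ∀ u v : V, G.Adj u v → ∃ w ∈ W, G.dist u w ≠ G.dist v w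

/-- Distances to the members of `C`, and `0` elsewhere. -/
noncomputable def code (C : Finset V) (s : V) : V → ℕ :=
  fun w => if w ∈ C then G.dist s w else 0

lemma code_eq_iff (C : Finset V) (s t : V) :
    code G C s = code G C t ↔ ∀ w ∈ C, G.dist s w = G.dist t w := by
  constructor
  · intro h w hw
    have := congrFun h w
    simpa [code, hw] using this
  · intro h
    funext w
    by_cases hw : w ∈ C
    · simp [code, hw, h w hw]
    · simp [code, hw]

/-- Bondy type count: each new coordinate in `L` separates a pair of members of `S` that the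
other coordinates do not separate. -/
lemma bondy (S C L : Finset V) (hd : ∀ l ∈ L, l ∉ C)
    (hL : ∀ l ∈ L, ∃ a ∈ S, ∃ b ∈ S, (∀ w ∈ C ∪ L, w ≠ l → G.dist a w = G.dist b w) ∧
      G.dist a l ≠ G.dist b l) :
    (S.image (code G C)).card + L.card ≤ S.card := by
  have key : ∀ L' : Finset V, L' ⊆ L →
      (S.image (code G C)).card + L'.card ≤ (S.image (code G (C ∪ L'))).card := by
    intro L'
    induction L' using Finset.induction_on with
    | empty => intro _; simp
    | insert l L' hl ih =>
      intro hsub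
      have h1 := ih (fun x hx => hsub (mem_insert_of_mem hx))
      obtain ⟨a, ha, b, hb, hab, hne⟩ := hL l (hsub (mem_insert_self _ _))
      have hlC : l ∉ C := hd l (hsub (mem_insert_self _ _))
      let ρ : (V → ℕ) → (V → ℕ) := fun g w => if w ∈ C ∪ L' then g w else 0
      have hρ : ∀ s, ρ (code G (C ∪ insert l L') s) = code G (C ∪ L') s := by
        intro s
        funext w
        by_cases hw : w ∈ C ∪ L'
        · have hw' : w ∈ C ∪ insert l L' := by
            rcases mem_union.1 hw with h | h
            · exact mem_union_left _ h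
            · exact mem_union_right _ (mem_insert_of_mem h)
          simp only [ρ, code, if_pos hw, if_pos hw']
        · simp only [ρ, code, if_neg hw]
      have himg : (S.image (code G (C ∪ insert l L'))).image ρ = S.image (code G (C ∪ L')) := by
        rw [image_image]
        apply image_congr
        intro s _
        exact hρ s
      have hle : (S.image (code G (C ∪ L'))).card ≤ (S.image (code G (C ∪ insert l L'))).card := by
        rw [← himg]; exact card_image_le
      have hlt : (S.image (code G (C ∪ L'))).card ≠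
          (S.image (code G (C ∪ insert l L'))).card := by
        intro heq
        rw [← himg] at heq
        have hinj := card_image_iff.1 heq
        have h2 : code G (C ∪ insert l L') a = code G (C ∪ insert l L') b := by
          apply hinj
          · exact mem_coe.2 (mem_image_of_mem _ ha)
          · exact mem_coe.2 (mem_image_of_mem _ hb)
          · rw [hρ, hρ, code_eq_iff]
            intro w hw
            apply hab
            · rcases mem_union.1 hw with h | h
              · exact mem_union_left _ h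
              · exact mem_union_right _ (hsub (mem_insert_of_mem h))
            · rintro rfl
              rcases mem_union.1 hw with h | h
              · exact hlC h
              · exact hl h
        rw [code_eq_iff] at h2
        exact hne (h2 l (mem_union_right _ (mem_insert_self _ _)))
      rw [card_insert_of_notMem hl]
      omega
  exact (key L (Subset.refl _)).trans card_image_le

/-- A clique has at most `q + 1` members. -/
lemma card_le_of_clique {q : ℕ} (hfree : G.CliqueFree (q + 2)) (T : Finset V)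
    (hT : G.IsClique (T : Set V)) : T.card ≤ q + 1 := by
  by_contra hlt
  exact (hfree.mono (show q + 2 ≤ T.card by omega)) T ⟨hT, rfl⟩

/-- The optimal resolving set: no member may be dropped, and no member may be replaced by
a vertex nearer to the root. -/
lemma exists_opt (hc : G.Connected) (r : V) :
    ∃ W : Finset V, Res G W ∧ (∀ x ∈ W, ¬ Res G (W.erase x)) ∧
      (∀ x ∈ W, ∀ z, z ∉ W → G.dist r z < G.dist r x → ¬ Res G (insert z (W.erase x))) := by
  set B : ℕ := (∑ v : V, G.dist r v) + 1 with hB
  have huniv : Res G (univ : Finset V) := by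
    intro u v huv
    refine ⟨u, mem_univ _, ?_⟩
    rw [SimpleGraph.dist_self]
    intro h
    have := hc.dist_eq_zero_iff.1 h.symm
    exact huv.ne this.symm
  obtain ⟨W, hW, hmin⟩ := exists_min_image (univ.filter (fun W : Finset V => Res G W))
    (fun W => W.card * B + ∑ w ∈ W, G.dist r w) ⟨univ, by simp [huniv]⟩
  rw [mem_filter] at hW
  have hmin' : ∀ W', Res G W' →
      W.card * B + ∑ w ∈ W, G.dist r w ≤ W'.card * B + ∑ w ∈ W', G.dist r w :=
    fun W' hW' => hmin W' (by simp [hW'])
  have hsum : ∀ T : Finset V, ∑ w ∈ T, G.dist r w < B := by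
    intro T
    have : ∑ w ∈ T, G.dist r w ≤ ∑ w : V, G.dist r w :=
      sum_le_sum_of_subset (subset_univ _)
    omega
  refine ⟨W, hW.2, ?_, ?_⟩
  · intro x hx hR
    have h1 := hmin' _ hR
    have h2 : (W.erase x).card + 1 = W.card := card_erase_add_one hx
    have h3 := hsum (W.erase x)
    rw [← h2, add_mul] at h1
    omega
  · intro x hx z hz hlt hR
    have h1 := hmin' _ hR
    have hzx : z ∉ W.erase x := fun h => hz (mem_of_mem_erase h)
    rw [card_insert_of_notMem hzx, card_erase_add_one hx, sum_insert hzx] at h1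
    have h2 := add_sum_erase W (fun w => G.dist r w) hx
    omega

/-- The edge `a b` is resolved by no member of `W` other than `x`. -/
def Pr (W : Finset V) (x a b : V) : Prop :=
  G.Adj a b ∧ ∀ w ∈ W, w ≠ x → G.dist a w = G.dist b w

variable {G}

lemma Pr.symm {W : Finset V} {x a b : V} (h : Pr G W x a b) : Pr G W x b a :=
  ⟨h.1.symm, fun w hw hne => (h.2 w hw hne).symm⟩

lemma Pr.eq_of_mem (hc : G.Connected) {W : Finset V} {x a b : V} (h : Pr G W x a b)
    (ha : a ∈ W) : a = x := by
  by_contra hne
  have h1 := h.2 a ha hne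
  rw [SimpleGraph.dist_self] at h1
  exact h.1.ne (hc.dist_eq_zero_iff.1 h1.symm).symm

variable (G)

theorem main {q : ℕ} (hq : 2 ≤ q) (hc : G.Connected) (hfree : G.CliqueFree (q + 2))
    (r y1 y2 : V) (hr1 : G.Adj r y1) (hr2 : G.Adj r y2) (hy : y1 ≠ y2)
    (hna : ¬ G.Adj y1 y2) :
    ∃ W : Finset V, Res G W ∧ W.card ≤ (q - 1) * Wᶜ.card := by
  obtain ⟨W, hRes, hmin, hroot⟩ := exists_opt G hc r
  refine ⟨W, hRes, ?_⟩
  have d1 : ∀ a b, G.dist a b = 1 ↔ G.Adj a b := fun a b => SimpleGraph.dist_eq_one_iff_adj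
  have priv : ∀ x ∈ W, ∃ a b, Pr G W x a b := by
    intro x hx
    have h := hmin x hx
    unfold Res at h
    push Not at h
    obtain ⟨a, b, hab, h⟩ := h
    exact ⟨a, b, hab, fun w hw hne => h w (mem_erase.2 ⟨hne, hw⟩)⟩
  set WB := W.filter (fun x => ∃ a b, a ∉ W ∧ b ∉ W ∧ Pr G W x a b) with hWB
  set WA := W.filter (fun x => ¬ ∃ a b, a ∉ W ∧ b ∉ W ∧ Pr G W x a b) with hWA
  have hAW : ∀ x ∈ WA, x ∈ W := fun x hx => (mem_filter.1 hx).1
  have hA : ∀ x ∈ WA, ∀ a b, Pr G W x a b → (a = x ∧ b ∉ W) ∨ (b = x ∧ a ∉ W) := by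
    intro x hx a b hab
    have h := (mem_filter.1 hx).2
    by_cases ha : a ∈ W
    · have hax := hab.eq_of_mem hc ha
      left
      refine ⟨hax, fun hb => ?_⟩
      have hbx := hab.symm.eq_of_mem hc hb
      exact hab.1.ne (hax.trans hbx.symm)
    · by_cases hb : b ∈ W
      · right
        exact ⟨hab.symm.eq_of_mem hc hb, ha⟩
      · exact absurd ⟨a, b, ha, hb, hab⟩ h
  have hex : ∀ x ∈ WA, ∃ t, t ∉ W ∧ Pr G W x x t := by
    intro x hx
    obtain ⟨a, b, hab⟩ := priv x (hAW x hx)
    rcases hA x hx a b hab with ⟨rfl, hb⟩ | ⟨rfl, ha⟩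
    · exact ⟨b, hb, hab⟩
    · exact ⟨a, ha, hab.symm⟩
  choose! t ht using hex
  set h := code G WA with hh
  have hcoord : ∀ s s', h s = h s' → ∀ w ∈ WA, G.dist s w = G.dist s' w :=
    fun s s' e => (code_eq_iff G WA s s').1 e
  have hadj : ∀ x ∈ WA, ∀ s, h s = h (t x) → G.Adj s x := by
    intro x hx s e
    rw [← d1, hcoord _ _ e x hx, d1]
    exact (ht x hx).2.1.symm
  have hadj2 : ∀ x ∈ WA, ∀ x' ∈ WA, x ≠ x' → h (t x) = h (t x') → G.Adj x x' := by
    intro x hx x' hx' hne e
    rw [← d1, (ht x hx).2.2 x' (hAW x' hx') (Ne.symm hne), d1]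
    exact hadj x' hx' _ e
  let Acl : (V → ℕ) → Finset V := fun κ => WA.filter (fun x => h (t x) = κ)
  let K : (V → ℕ) → Finset V := fun κ => Wᶜ.filter (fun s => h s = κ)
  let Ed : (V → ℕ) → Prop := fun κ => ∃ a ∈ K κ, ∃ b ∈ K κ, G.Adj a b
  have memA : ∀ κ x, x ∈ Acl κ ↔ x ∈ WA ∧ h (t x) = κ := fun κ x => mem_filter
  have memK : ∀ κ s, s ∈ K κ ↔ s ∉ W ∧ h s = κ := by
    intro κ s
    simp only [K, mem_filter, mem_compl]
  have cl0 : ∀ κ, G.IsClique (Acl κ : Set V) := by
    intro κ x hx x' hx' hne
    rw [mem_coe, memA] at hx hx'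
    exact hadj2 x hx.1 x' hx'.1 hne (hx.2.trans hx'.2.symm)
  have cl1 : ∀ κ, ∀ s ∈ K κ, (Acl κ).card ≤ q := by
    intro κ s hs
    rw [memK] at hs
    have hnot : s ∉ Acl κ := fun hsA => hs.1 (hAW s ((memA κ s).1 hsA).1)
    have hcl : G.IsClique ((insert s (Acl κ) : Finset V) : Set V) := by
      rw [coe_insert, SimpleGraph.isClique_insert]
      refine ⟨cl0 κ, fun x hx _ => ?_⟩
      rw [mem_coe, memA] at hx
      exact hadj x hx.1 s (hs.2.trans hx.2.symm)
    have := card_le_of_clique G hfree _ hcl
    rw [card_insert_of_notMem hnot] at this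
    omega
  have cl2 : ∀ κ, Ed κ → (Acl κ).card + 1 ≤ q := by
    rintro κ ⟨a, ha, b, hb, hab⟩
    rw [memK] at ha hb
    have hnb : b ∉ Acl κ := fun hsA => hb.1 (hAW b ((memA κ b).1 hsA).1)
    have hna' : a ∉ insert b (Acl κ) := by
      rw [mem_insert]
      rintro (e | hsA)
      · exact hab.ne e
      · exact ha.1 (hAW a ((memA κ a).1 hsA).1)
    have hcl : G.IsClique ((insert a (insert b (Acl κ)) : Finset V) : Set V) := by
      rw [coe_insert, SimpleGraph.isClique_insert, coe_insert, SimpleGraph.isClique_insert]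
      refine ⟨⟨cl0 κ, fun x hx _ => ?_⟩, fun x hx _ => ?_⟩
      · rw [mem_coe, memA] at hx
        exact hadj x hx.1 b (hb.2.trans hx.2.symm)
      · rcases hx with e | hx
        · rw [e]; exact hab
        · rw [mem_coe, memA] at hx
          exact hadj x hx.1 a (ha.2.trans hx.2.symm)
    have := card_le_of_clique G hfree _ hcl
    rw [card_insert_of_notMem hna', card_insert_of_notMem hnb] at this
    omega
  -- the analysis of a bad class
  have bad : ∀ κ v, K κ = {v} → (Acl κ).card = q →
      r ∈ Acl κ ∧ ∃ z, z ∉ W ∧ h z ≠ κ ∧ Acl (h z) = ∅ := by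
    intro κ v hK hcard
    have hv : v ∉ W ∧ h v = κ := by rw [← memK, hK]; exact mem_singleton_self v
    have htv : ∀ x ∈ Acl κ, t x = v := by
      intro x hx
      rw [memA] at hx
      have : t x ∈ K κ := by rw [memK]; exact ⟨(ht x hx.1).1, hx.2⟩
      rw [hK] at this
      exact mem_singleton.1 this
    have hPr : ∀ x ∈ Acl κ, Pr G W x x v := by
      intro x hx
      have := (ht x ((memA κ x).1 hx).1).2
      rwa [htv x hx] at this
    have huniq : ∀ x ∈ Acl κ, ∀ b, b ∉ W → Pr G W x x b → b = v := by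
      intro x hx b hb hxb
      have hxA := ((memA κ x).1 hx).1
      have : b ∈ K κ := by
        rw [memK]
        refine ⟨hb, ?_⟩
        rw [← hv.2]
        refine (code_eq_iff G WA b v).2 fun w hw => ?_
        by_cases hwx : w = x
        · rw [hwx, (d1 b x).2 hxb.1.symm, (d1 v x).2 (hPr x hx).1.symm]
        · rw [← hxb.2 w (hAW w hw) hwx, (hPr x hx).2 w (hAW w hw) hwx]
      rw [hK] at this
      exact mem_singleton.1 this
    have exch : ∀ x ∈ Acl κ, ∀ z, G.dist x z ≠ G.dist v z →
        Res G (insert z (W.erase x)) := by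
      intro x hx z hz a b hab
      by_cases hw : ∃ w ∈ W, w ≠ x ∧ G.dist a w ≠ G.dist b w
      · obtain ⟨w, hw, hwx, hne⟩ := hw
        exact ⟨w, mem_insert_of_mem (mem_erase.2 ⟨hwx, hw⟩), hne⟩
      · push Not at hw
        have hP : Pr G W x a b := ⟨hab, hw⟩
        refine ⟨z, mem_insert_self _ _, ?_⟩
        rcases hA x ((memA κ x).1 hx).1 a b hP with ⟨rfl, hb⟩ | ⟨rfl, ha⟩
        · rw [huniq a hx b hb hP]; exact hz
        · rw [huniq b hx a ha hP.symm]; exact hz.symm
    have hvA : v ∉ Acl κ := fun hx => hv.1 (hAW v ((memA κ v).1 hx).1)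
    have hQcl : G.IsClique ((insert v (Acl κ) : Finset V) : Set V) := by
      rw [coe_insert, SimpleGraph.isClique_insert]
      exact ⟨cl0 κ, fun x hx _ => (hPr x (mem_coe.1 hx)).1.symm⟩
    have noOut : ∀ y, y ∉ insert v (Acl κ) → (∀ s ∈ insert v (Acl κ), G.Adj y s) → False := by
      intro y hy' hall
      have hcl : G.IsClique ((insert y (insert v (Acl κ)) : Finset V) : Set V) := by
        rw [coe_insert, SimpleGraph.isClique_insert]
        exact ⟨hQcl, fun s hs _ => hall s (mem_coe.1 hs)⟩
      have := card_le_of_clique G hfree _ hcl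
      rw [card_insert_of_notMem hy', card_insert_of_notMem hvA] at this
      omega
    have noW : ∀ w ∈ W, w ∉ Acl κ → ∀ s ∈ insert v (Acl κ), ¬ G.Adj w s := by
      intro w hw hwA
      have hwv : ¬ G.Adj w v := by
        intro hadjw
        refine noOut w ?_ ?_
        · rw [mem_insert]
          rintro (e | h')
          · exact hv.1 (e ▸ hw)
          · exact hwA h'
        · intro s hs
          rcases mem_insert.1 hs with e | hs
          · rw [e]; exact hadjw
          · have hne : w ≠ s := fun e => hwA (e ▸ hs)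
            have := (hPr s hs).2 w hw hne
            rw [(d1 v w).2 hadjw.symm, d1] at this
            exact this.symm
      intro s hs hadjs
      rcases mem_insert.1 hs with e | hs
      · exact hwv (e ▸ hadjs)
      · have hne : w ≠ s := fun e => hwA (e ▸ hs)
        have := (hPr s hs).2 w hw hne
        rw [(d1 s w).2 hadjs.symm] at this
        exact hwv ((d1 v w).1 this.symm).symm
    have hrA : r ∈ Acl κ := by
      by_contra hrA
      have hne : (Acl κ).Nonempty := by rw [← card_pos]; omega
      by_cases hrv : r = v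
      · obtain ⟨x, hx⟩ := hne
        have hxW := hAW x ((memA κ x).1 hx).1
        refine hroot x hxW v hv.1 ?_ (exch x hx v ?_)
        · rw [hrv, SimpleGraph.dist_self, (d1 v x).2 (hPr x hx).1.symm]
          exact one_pos
        · rw [SimpleGraph.dist_self, (d1 x v).2 (hPr x hx).1]
          exact one_ne_zero
      · obtain ⟨s, hs, hsmin⟩ := exists_min_image (insert v (Acl κ)) (fun s => G.dist r s)
          ⟨v, mem_insert_self _ _⟩
        have hrs : s ≠ r := by
          rintro rfl
          rcases mem_insert.1 hs with e | hs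
          · exact hrv e
          · exact hrA hs
        obtain ⟨z, hsz, hz⟩ : ∃ z, G.Adj s z ∧ G.dist r z < G.dist r s := by
          obtain ⟨p, hp⟩ := hc.exists_walk_length_eq_dist s r
          cases p with
          | nil => exact absurd rfl hrs
          | @cons _ z _ hadj' p' =>
            refine ⟨z, hadj', ?_⟩
            have h1 : G.dist z r ≤ p'.length := SimpleGraph.dist_le p'
            rw [SimpleGraph.Walk.length_cons] at hp
            rw [SimpleGraph.dist_comm (u := r) (v := z), SimpleGraph.dist_comm (u := r) (v := s)]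
            omega
        have hzQ : z ∉ insert v (Acl κ) := by
          intro hzQ
          have := hsmin z hzQ
          omega
        have hzA : z ∉ Acl κ := fun h' => hzQ (mem_insert_of_mem h')
        have hzW : z ∉ W := fun h' => noW z h' hzA s hs hsz.symm
        obtain ⟨x, hx, hxz⟩ : ∃ x ∈ Acl κ, G.dist x z ≠ G.dist v z := by
          by_cases hzv : G.Adj z v
          · by_contra hcon
            push Not at hcon
            refine noOut z hzQ fun s' hs' => ?_
            rcases mem_insert.1 hs' with e | hs'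
            · rw [e]; exact hzv
            · have := hcon s' hs'
              rw [(d1 v z).2 hzv.symm, d1] at this
              exact this.symm
          · rcases mem_insert.1 hs with e | hs
            · exact absurd (e ▸ hsz.symm) hzv
            · refine ⟨s, hs, ?_⟩
              rw [(d1 s z).2 hsz]
              intro e
              exact hzv ((d1 v z).1 e.symm).symm
        have hlt : G.dist r z < G.dist r x :=
          lt_of_lt_of_le hz (hsmin x (mem_insert_of_mem hx))
        exact hroot x (hAW x ((memA κ x).1 hx).1) z hzW hlt (exch x hx z hxz)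
    refine ⟨hrA, ?_⟩
    obtain ⟨z, hrz, hzQ⟩ : ∃ z, G.Adj r z ∧ z ∉ insert v (Acl κ) := by
      by_contra hcon
      push Not at hcon
      exact hna (hQcl (mem_coe.2 (hcon y1 hr1)) (mem_coe.2 (hcon y2 hr2)) hy)
    have hzA : z ∉ Acl κ := fun h' => hzQ (mem_insert_of_mem h')
    have hzW : z ∉ W := fun h' => noW z h' hzA r (mem_insert_of_mem hrA) hrz.symm
    have hzκ : h z ≠ κ := by
      intro e
      have : z ∈ K κ := by rw [memK]; exact ⟨hzW, e⟩
      rw [hK] at this
      exact hzQ (by rw [mem_singleton.1 this]; exact mem_insert_self _ _)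
    refine ⟨z, hzW, hzκ, ?_⟩
    rw [eq_empty_iff_forall_notMem]
    intro x hx
    rw [memA] at hx
    have hrWA := ((memA κ r).1 hrA).1
    have hrW := hAW r hrWA
    have hxr : x ≠ r := by
      rintro rfl
      exact hzκ (hx.2.symm.trans ((memA κ x).1 hrA).2)
    have e1 : G.dist (t x) r = 1 := by
      rw [hcoord _ _ hx.2 r hrWA, d1]; exact hrz.symm
    have e2 := (ht x hx.1).2.2 r hrW hxr.symm
    rw [e1, d1] at e2
    refine noW x (hAW x hx.1) ?_ r (mem_insert_of_mem hrA) e2
    intro hxA
    exact hzκ (hx.2.symm.trans ((memA κ x).1 hxA).2)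
  -- the counting
  set H := Wᶜ.image h with hH
  have memH : ∀ s, s ∉ W → h s ∈ H := fun s hs => mem_image_of_mem h (mem_compl.2 hs)
  have hKpos : ∀ κ ∈ H, 1 ≤ (K κ).card := by
    intro κ hκ
    obtain ⟨s, hs, hsκ⟩ := mem_image.1 hκ
    exact card_pos.2 ⟨s, (memK κ s).2 ⟨mem_compl.1 hs, hsκ⟩⟩
  have hK2 : ∀ κ, Ed κ → 2 ≤ (K κ).card := by
    rintro κ ⟨a, ha, b, hb, hab⟩
    exact one_lt_card.2 ⟨a, ha, b, hb, hab.ne⟩
  have hWAcard : WA.card = ∑ κ ∈ H, (Acl κ).card :=
    card_eq_sum_card_fiberwise fun x hx => mem_coe.2 (memH _ (ht x (mem_coe.1 hx)).1)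
  have hScard : Wᶜ.card = ∑ κ ∈ H, (K κ).card :=
    card_eq_sum_card_fiberwise fun x hx => mem_coe.2 (mem_image_of_mem h (mem_coe.1 hx))
  have hWcard : WB.card + WA.card = W.card := by
    rw [hWB, hWA]
    exact card_filter_add_card_filter_not (s := W) _
  have hBond : (H.filter Ed).card + WB.card ≤ ∑ κ ∈ H.filter Ed, (K κ).card := by
    set Se := Wᶜ.filter (fun s => Ed (h s)) with hSe
    have memSe : ∀ s, s ∈ Se ↔ s ∉ W ∧ Ed (h s) := by
      intro s
      rw [hSe, mem_filter, mem_compl]
    have himg : Se.image h = H.filter Ed := by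
      ext κ
      constructor
      · intro hκ
        obtain ⟨s, hs, rfl⟩ := mem_image.1 hκ
        rw [memSe] at hs
        exact mem_filter.2 ⟨memH s hs.1, hs.2⟩
      · intro hκ
        obtain ⟨h1, h2⟩ := mem_filter.1 hκ
        obtain ⟨s, hs, rfl⟩ := mem_image.1 h1
        exact mem_image.2 ⟨s, (memSe s).2 ⟨mem_compl.1 hs, h2⟩, rfl⟩
    have hcard : Se.card = ∑ κ ∈ H.filter Ed, (K κ).card := by
      rw [← himg, card_eq_sum_card_image h Se]
      refine sum_congr rfl fun κ hκ => ?_
      obtain ⟨s0, hs0, rfl⟩ := mem_image.1 hκ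
      rw [memSe] at hs0
      congr 1
      ext s
      rw [mem_filter, memSe, memK]
      constructor
      · rintro ⟨⟨h1, -⟩, h3⟩
        exact ⟨h1, h3⟩
      · rintro ⟨h1, h3⟩
        exact ⟨⟨h1, by rw [h3]; exact hs0.2⟩, h3⟩
    rw [← hcard, ← himg]
    refine bondy G Se WA WB ?_ ?_
    · intro l hl hlA
      exact (mem_filter.1 hlA).2 (mem_filter.1 hl).2
    · intro l hl
      obtain ⟨hlW, a, b, ha, hb, hab⟩ := mem_filter.1 hl
      have hlA : l ∉ WA := fun hlA => (mem_filter.1 hlA).2 ⟨a, b, ha, hb, hab⟩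
      have hhab : h a = h b := by
        refine (code_eq_iff G WA a b).2 fun w hw => hab.2 w (hAW w hw) ?_
        rintro rfl
        exact hlA hw
      have hEd : Ed (h a) := ⟨a, (memK _ _).2 ⟨ha, rfl⟩, b, (memK _ _).2 ⟨hb, hhab.symm⟩, hab.1⟩
      refine ⟨a, (memSe a).2 ⟨ha, hEd⟩, b, (memSe b).2 ⟨hb, by rw [← hhab]; exact hEd⟩, ?_, ?_⟩
      · intro w hw hwl
        refine hab.2 w ?_ hwl
        rcases mem_union.1 hw with h' | h'
        · exact hAW w h'
        · exact (mem_filter.1 h').1
      · obtain ⟨w, hw, hne⟩ := hRes a b hab.1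
        by_cases hwl : w = l
        · rw [← hwl]; exact hne
        · exact absurd (hab.2 w hw hwl) hne
  let c : (V → ℕ) → ℕ := fun κ => (Acl κ).card + if Ed κ then (K κ).card - 1 else 0
  have hc1 : W.card ≤ ∑ κ ∈ H, c κ := by
    have e1 : ∑ κ ∈ H, c κ = ∑ κ ∈ H, (Acl κ).card + ∑ κ ∈ H.filter Ed, ((K κ).card - 1) := by
      rw [sum_add_distrib, sum_filter]
    have e2 : ∑ κ ∈ H.filter Ed, (K κ).card =
        ∑ κ ∈ H.filter Ed, ((K κ).card - 1) + (H.filter Ed).card := by
      rw [card_eq_sum_ones, ← sum_add_distrib]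
      refine sum_congr rfl fun κ hκ => ?_
      have := hKpos κ (mem_filter.1 hκ).1
      omega
    rw [e1, ← hWAcard]
    omega
  have nonbad : ∀ κ ∈ H, ¬ ((K κ).card = 1 ∧ (Acl κ).card = q) →
      c κ ≤ (q - 1) * (K κ).card := by
    intro κ hκ hnb
    have hp := hKpos κ hκ
    obtain ⟨s, hs⟩ := card_pos.1 hp
    have hle := cl1 κ s hs
    obtain ⟨p, rfl⟩ : ∃ p, q = p + 2 := ⟨q - 2, by omega⟩
    have hq1 : p + 2 - 1 = p + 1 := rfl
    rw [hq1]
    by_cases hE : Ed κ
    · have h2 := hK2 κ hE
      have h3 := cl2 κ hE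
      simp only [c, if_pos hE]
      obtain ⟨k, hk⟩ : ∃ k, (K κ).card = k + 2 := ⟨(K κ).card - 2, by omega⟩
      rw [hk]
      have : (Acl κ).card + (k + 2 - 1) ≤ (p + 1) + (k + 1) := by omega
      refine this.trans ?_
      nlinarith
    · simp only [c, if_neg hE]
      by_cases hk1 : (K κ).card = 1
      · rw [hk1]
        have : (Acl κ).card ≠ p + 2 := fun e => hnb ⟨hk1, e⟩
        omega
      · have : 2 ≤ (K κ).card := by omega
        nlinarith
  rw [hScard, mul_sum]
  refine hc1.trans ?_
  by_cases hbad : ∃ κ ∈ H, (K κ).card = 1 ∧ (Acl κ).card = q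
  · obtain ⟨κ, hκ, hκ1, hκq⟩ := hbad
    obtain ⟨v, hv⟩ := card_eq_one.1 hκ1
    obtain ⟨hrA, z, hzW, hzκ, hz0⟩ := bad κ v hv hκq
    have hzH : h z ∈ H.erase κ := mem_erase.2 ⟨hzκ, memH z hzW⟩
    rw [← add_sum_erase H c hκ, ← add_sum_erase _ c hzH,
      ← add_sum_erase H (fun κ => (q - 1) * (K κ).card) hκ,
      ← add_sum_erase _ (fun κ => (q - 1) * (K κ).card) hzH]
    have hrest : ∑ κ' ∈ (H.erase κ).erase (h z), c κ' ≤
        ∑ κ' ∈ (H.erase κ).erase (h z), (q - 1) * (K κ').card := by
      refine sum_le_sum fun κ' hκ' => ?_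
      have hκ'1 := mem_of_mem_erase hκ'
      refine nonbad κ' (mem_of_mem_erase hκ'1) ?_
      rintro ⟨h1, h2⟩
      obtain ⟨v', hv'⟩ := card_eq_one.1 h1
      have h3 := (bad κ' v' hv' h2).1
      exact (ne_of_mem_erase hκ'1) (((memA κ' r).1 h3).2.symm.trans ((memA κ r).1 hrA).2)
    have hcκ : c κ = q := by
      have hnE : ¬ Ed κ := fun hE => by
        have := hK2 κ hE
        omega
      simp only [c, if_neg hnE, hκq, add_zero]
    have hcz : c (h z) + 1 ≤ (q - 1) * (K (h z)).card := by
      have hp := hKpos _ (memH z hzW)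
      have hle : (K (h z)).card ≤ (q - 1) * (K (h z)).card :=
        Nat.le_mul_of_pos_left _ (by omega)
      by_cases hE : Ed (h z)
      · simp only [c, if_pos hE, hz0, card_empty]
        omega
      · simp only [c, if_neg hE, hz0, card_empty]
        omega
    simp only [hκ1, mul_one]
    omega
  · push Not at hbad
    exact sum_le_sum fun κ hκ => nonbad κ hκ fun hb => hbad κ hκ hb.1 hb.2

end Pool.Agent.Y689.LMD
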